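import Pool.Agent.H49.SW.Stm

set_option autoImplicit false

/-!
# R4: the degree of `a g` for a good `g`
-/

namespace Pool.Agent.H25.SW

open Finset MvPolynomial Filter Pool.Agent.H49.SW

theorem ev_hom {α : Type} [Fintype α] {q : MvPolynomial α ℤ} {d : ℕ} (hq : q.IsHomogeneous d)
    (t : α → ℕ) (z : ℕ) : evt (fun x => z * t x) q = (z : ℤ) ^ d * evt t q := by
  unfold evt
  rw [eval_eq', eval_eq', Finset.mul_sum]
  refine Finset.sum_congr rfl fun m hm => ?_
  have h1 : ∑ x, m x = d := by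
    have h2 := hq (mem_support_iff.1 hm)
    have h3 : m.degree = d := by
      rw [Finsupp.degree_eq_weight_one]
      exact h2
    rw [Finsupp.degree_eq_sum] at h3
    exact h3
  push_cast
  simp_rw [mul_pow]
  rw [Finset.prod_mul_distrib, Finset.prod_pow_eq_pow_sum, h1]
  ring

theorem ev_ray {α : Type} [Fintype α] (p : MvPolynomial α ℤ) (t : α → ℕ) (z : ℕ) :
    evt (fun x => z * t x) p =
      ∑ d ∈ range (p.totalDegree + 1), (z : ℤ) ^ d * evt t (homogeneousComponent d p) := by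
  have h1 : evt (fun x => z * t x) p =
      ∑ d ∈ range (p.totalDegree + 1), evt (fun x => z * t x) (homogeneousComponent d p) := by
    conv_lhs => rw [← sum_homogeneousComponent p]
    unfold evt
    rw [map_sum]
  rw [h1]
  exact Finset.sum_congr rfl fun d _ => ev_hom (homogeneousComponent_isHomogeneous d p) t z

theorem top_ne {α : Type} (p : MvPolynomial α ℤ) (hp : p ≠ 0) :
    homogeneousComponent p.totalDegree p ≠ 0 := by
  obtain ⟨m, hm, hmd⟩ := Finset.exists_mem_eq_sup p.support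
    (Finset.nonempty_iff_ne_empty.2 (by simpa using hp)) (fun m => m.sum fun _ e => e)
  intro h
  have h1 := congrArg (coeff m) h
  rw [coeff_homogeneousComponent, coeff_zero, if_pos] at h1
  · exact (mem_support_iff.1 hm) h1
  · rw [totalDegree, hmd]
    rfl

/-- the polynomial of the ray -/
noncomputable def rp (D n : ℕ) (c : ℕ → ℤ) (K : ℤ) : Polynomial ℝ :=
  ∑ d ∈ range (D + 1), Polynomial.C ((c d : ℝ) - if d = n then (K : ℝ) else 0) * Polynomial.X ^ d

theorem rp_coeff (D n : ℕ) (c : ℕ → ℤ) (K : ℤ) (k : ℕ) : (rp D n c K).coeff k =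
    if k ∈ range (D + 1) then ((c k : ℝ) - if k = n then (K : ℝ) else 0) else 0 := by
  unfold rp
  rw [Polynomial.finsetSum_coeff]
  simp only [Polynomial.coeff_C_mul_X_pow]
  rw [Finset.sum_ite_eq]

theorem rp_deg (D n : ℕ) (c : ℕ → ℤ) (K : ℤ) (hn : n < D) (hc : c D ≠ 0) :
    (rp D n c K).natDegree = D ∧ (rp D n c K).leadingCoeff = (c D : ℝ) := by
  have h1 : (rp D n c K).coeff D = (c D : ℝ) := by
    rw [rp_coeff, if_pos (by simp), if_neg (by omega), sub_zero]
  have h2 : (rp D n c K).natDegree ≤ D := by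
    refine Polynomial.natDegree_le_iff_coeff_eq_zero.2 fun k hk => ?_
    rw [rp_coeff, if_neg]
    rw [mem_range]
    omega
  have h3 : (rp D n c K).natDegree = D :=
    Polynomial.natDegree_eq_of_le_of_coeff_ne_zero h2 (by rw [h1]; exact_mod_cast hc)
  refine ⟨h3, ?_⟩
  rw [Polynomial.leadingCoeff, h3, h1]

theorem rp_eval (D n : ℕ) (c : ℕ → ℤ) (K : ℤ) (hn : n < D) (z : ℕ) :
    (rp D n c K).eval (z : ℝ) =
      ((∑ d ∈ range (D + 1), (z : ℤ) ^ d * c d - K * (z : ℤ) ^ n : ℤ) : ℝ) := by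
  unfold rp
  rw [Polynomial.eval_finsetSum]
  simp only [Polynomial.eval_mul, Polynomial.eval_C, Polynomial.eval_pow, Polynomial.eval_X, sub_mul,
    Finset.sum_sub_distrib, ite_mul, zero_mul]
  rw [Finset.sum_ite_eq' (range (D + 1)) n (fun d => (K : ℝ) * (z : ℝ) ^ d), if_pos (by
    rw [mem_range]; omega)]
  push_cast
  congr 1
  exact Finset.sum_congr rfl fun d _ => mul_comm _ _

theorem lower {α : Type} [Fintype α] (p : MvPolynomial α ℤ) (t : α → ℕ) (hgen : Gen t p) (n : ℕ)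
    (hn : n < p.totalDegree) (hpos : ∀ z : ℕ, 1 ≤ z → 0 ≤ evt (fun x => z * t x) p) (K : ℤ) :
    ∀ᶠ z : ℕ in atTop, K * (z : ℤ) ^ n ≤ evt (fun x => z * t x) p := by
  have hp : p ≠ 0 := by
    rintro rfl
    rw [totalDegree_zero] at hn
    omega
  set D := p.totalDegree with hD
  set c : ℕ → ℤ := fun d => evt t (homogeneousComponent d p) with hc
  have hcD : c D ≠ 0 := hgen D (top_ne p hp)
  have hev : ∀ z : ℕ, evt (fun x => z * t x) p = ∑ d ∈ range (D + 1), (z : ℤ) ^ d * c d :=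
    fun z => ev_ray p t z
  have hdeg : ∀ K : ℤ, 0 < (rp D n c K).degree := by
    intro K
    rw [← Polynomial.natDegree_pos_iff_degree_pos, (rp_deg D n c K hn hcD).1]
    omega
  rcases lt_or_gt_of_ne hcD with h | h
  · exfalso
    have h1 : Tendsto (fun x => (rp D n c 0).eval x) atTop atBot :=
      Polynomial.tendsto_atBot_of_leadingCoeff_nonpos _ (hdeg 0) (by
        rw [(rp_deg D n c 0 hn hcD).2]
        exact_mod_cast h.le)
    have h2 := h1.comp (tendsto_natCast_atTop_atTop (R := ℝ))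
    have h3 := (h2.eventually (eventually_lt_atBot (0 : ℝ))).and (eventually_ge_atTop 1)
    obtain ⟨z, hz, hz1⟩ := h3.exists
    have h4 := hpos z hz1
    rw [hev] at h4
    simp only [Function.comp_apply] at hz
    rw [rp_eval D n c 0 hn z, zero_mul, sub_zero] at hz
    have h5 : (∑ d ∈ range (D + 1), (z : ℤ) ^ d * c d) < 0 := by exact_mod_cast hz
    omega
  · have h1 : Tendsto (fun x => (rp D n c K).eval x) atTop atTop :=
      Polynomial.tendsto_atTop_of_leadingCoeff_nonneg _ (hdeg K) (by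
        rw [(rp_deg D n c K hn hcD).2]
        exact_mod_cast h.le)
    have h2 := h1.comp (tendsto_natCast_atTop_atTop (R := ℝ))
    filter_upwards [h2.eventually (eventually_ge_atTop (0 : ℝ))] with z hz
    simp only [Function.comp_apply] at hz
    rw [rp_eval D n c K hn z] at hz
    have h5 : 0 ≤ (∑ d ∈ range (D + 1), (z : ℤ) ^ d * c d) - K * (z : ℤ) ^ n := by exact_mod_cast hz
    rw [hev]
    omega

theorem upper {α : Type} [Fintype α] (p : MvPolynomial α ℤ) (t : α → ℕ) (n : ℕ)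
    (hn : p.totalDegree ≤ n) : ∃ K : ℤ, 0 ≤ K ∧ ∀ z : ℕ, 1 ≤ z →
      evt (fun x => z * t x) p ≤ K * (z : ℤ) ^ n := by
  refine ⟨∑ d ∈ range (p.totalDegree + 1), |evt t (homogeneousComponent d p)|,
    Finset.sum_nonneg fun _ _ => abs_nonneg _, fun z hz => ?_⟩
  rw [ev_ray, Finset.sum_mul]
  refine Finset.sum_le_sum fun d hd => ?_
  rw [mem_range] at hd
  have hz' : (1 : ℤ) ≤ z := by exact_mod_cast hz
  have h1 : (z : ℤ) ^ d ≤ (z : ℤ) ^ n := pow_le_pow_right₀ hz' (by omega)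
  have h2 : (0 : ℤ) ≤ (z : ℤ) ^ d := by positivity
  calc (z : ℤ) ^ d * evt t (homogeneousComponent d p)
      ≤ (z : ℤ) ^ d * |evt t (homogeneousComponent d p)| :=
        mul_le_mul_of_nonneg_left (le_abs_self _) h2
    _ ≤ (z : ℤ) ^ n * |evt t (homogeneousComponent d p)| :=
        mul_le_mul_of_nonneg_right h1 (abs_nonneg _)
    _ = _ := mul_comm _ _

theorem degA (h2 : SClimb) : SDegA := by
  intro α _ _ F G a b e e' M P t ht hgen n hn
  by_contra hcon
  push Not at hcon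
  obtain ⟨K, hK0, hK⟩ := upper G t (n + 2) hn
  have hzt : ∀ z : ℕ, 1 ≤ z → ∀ x, 1 ≤ z * t x := fun z hz x => Nat.mul_pos hz (ht x)
  have hlow : ∀ᶠ z : ℕ in atTop, ∀ p ∈ P.finA.toFinset, n < p.totalDegree →
      K * (z : ℤ) ^ n ≤ evt (fun x => z * t x) p := by
    rw [Filter.eventually_all_finset]
    intro p hp
    rw [Set.Finite.mem_toFinset] at hp
    obtain ⟨g, rfl⟩ := hp
    by_cases hd : n < (a g).totalDegree
    · filter_upwards [lower (a g) t (hgen g) n hd (fun z hz => P.posA _ (hzt z hz) g) K] with z hz _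
      exact hz
    · filter_upwards with z h
      exact absurd h hd
  obtain ⟨z, hz, hz1⟩ := (hlow.and (eventually_ge_atTop 1)).exists
  obtain ⟨g, hg, hlt⟩ := h2 α F G a b e e' M P (fun x => z * t x) z hz1
    (fun x => Nat.le_mul_of_pos_right z (ht x))
  have h3 := hz (a g) (by rw [Set.Finite.mem_toFinset]; exact ⟨g, rfl⟩) (hcon g hg)
  have h4 := hK z hz1
  have hz' : (1 : ℤ) ≤ z := by exact_mod_cast hz1
  -- the sum of the coordinates
  have h5 : (z : ℤ) ≤ (∑ x, ((z * t x : ℕ) : ℤ)) - 1 := by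
    have h6 : (∑ _x : α, (z : ℤ)) ≤ ∑ x, ((z * t x : ℕ) : ℤ) := by
      refine Finset.sum_le_sum fun x _ => ?_
      exact_mod_cast Nat.le_mul_of_pos_right z (ht x)
    rw [Finset.sum_const, Finset.card_univ, nsmul_eq_mul] at h6
    have h7 : (2 : ℤ) ≤ (Fintype.card α : ℤ) := by exact_mod_cast P.two
    nlinarith
  have hzn : (0 : ℤ) ≤ (z : ℤ) ^ n := by positivity
  have h6 : (z : ℤ) * (K * (z : ℤ) ^ n) ≤
      ((∑ x, ((z * t x : ℕ) : ℤ)) - 1) * evt (fun x => z * t x) (a g) :=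
    mul_le_mul h5 h3 (mul_nonneg hK0 hzn) (by omega)
  have h7 : (z : ℤ) * (1 + (z : ℤ) * (K * (z : ℤ) ^ n)) ≤
      (z : ℤ) * (1 + ((∑ x, ((z * t x : ℕ) : ℤ)) - 1) * evt (fun x => z * t x) (a g)) :=
    mul_le_mul_of_nonneg_left (by linarith) (by omega)
  have h8 : (z : ℤ) * (1 + (z : ℤ) * (K * (z : ℤ) ^ n)) = z + K * (z : ℤ) ^ (n + 2) := by ring
  rw [h8] at h7
  linarith

end Pool.Agent.H25.SW
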